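import Pool.Agent.H44.MS.Basics

/-!
# Module [L1]: the Leibniz series with an error term
-/

set_option autoImplicit false

namespace Pool.Agent.H19.MS

open Finset Real Pool.Agent.H44.MS

/-- The partial sums of the Leibniz series. -/
noncomputable def LA (k : ℕ) : ℝ := ∑ i ∈ range k, (-1 : ℝ) ^ i / (2 * i + 1)

theorem LA_succ (k : ℕ) : LA (k + 1) = LA k + (-1 : ℝ) ^ k / (2 * k + 1) := by
  unfold LA
  rw [sum_range_succ]

theorem sum_chi_div (n : ℕ) : ∑ b ∈ Icc 1 n, chi b / b = LA ((n + 1) / 2) := by
  induction n with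
  | zero => simp [LA]
  | succ n ih =>
    rw [Finset.sum_Icc_succ_top (by omega), ih]
    rcases Nat.even_or_odd' n with ⟨m, rfl | rfl⟩
    · have h1 : (2 * m + 1) / 2 = m := by omega
      have h2 : (2 * m + 1 + 1) / 2 = m + 1 := by omega
      rw [h1, h2, LA_succ]
      congr 1
      have h3 : chi (2 * m + 1) = (-1 : ℝ) ^ m := by
        rcases Nat.even_or_odd' m with ⟨j, rfl | rfl⟩
        · rw [chi_of_one (by omega), pow_mul]
          norm_num
        · rw [chi_of_three (by omega), pow_succ, pow_mul]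
          norm_num
      rw [h3]
      push_cast
      rfl
    · have h1 : (2 * m + 1 + 1) / 2 = m + 1 := by omega
      have h2 : (2 * m + 1 + 1 + 1) / 2 = m + 1 := by omega
      rw [h1, h2, chi_of_even (by omega), zero_div, add_zero]

theorem sum_chi (n : ℕ) :
    ∑ b ∈ Icc 1 n, chi b = if n % 4 = 1 ∨ n % 4 = 2 then 1 else 0 := by
  induction n with
  | zero => simp
  | succ n ih =>
    rw [Finset.sum_Icc_succ_top (by omega), ih]
    have h4 : n % 4 < 4 := Nat.mod_lt _ (by norm_num)
    obtain h | h | h | h : n % 4 = 0 ∨ n % 4 = 1 ∨ n % 4 = 2 ∨ n % 4 = 3 := by omega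
    · rw [if_neg (by omega), if_pos (by omega), chi_of_one (by omega)]
      norm_num
    · rw [if_pos (by omega), if_pos (by omega), chi_of_even (by omega)]
      norm_num
    · rw [if_pos (by omega), if_neg (by omega), chi_of_three (by omega)]
      norm_num
    · rw [if_neg (by omega), if_neg (by omega), chi_of_even (by omega)]
      norm_num

theorem LA_error (k : ℕ) : |LA k - π / 4| ≤ 1 / (2 * (k : ℝ) + 1) := by
  have hanti : Antitone (fun i : ℕ => 1 / (2 * (i : ℝ) + 1)) := by
    intro a b hab
    have : (a : ℝ) ≤ b := by exact_mod_cast hab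
    have ha : (0 : ℝ) ≤ a := Nat.cast_nonneg a
    exact one_div_le_one_div_of_le (by linarith) (by linarith)
  have hsum : ∀ n : ℕ, ∑ i ∈ range n, (-1 : ℝ) ^ i * (1 / (2 * (i : ℝ) + 1)) = LA n := by
    intro n
    unfold LA
    refine sum_congr rfl (fun i _ => ?_)
    rw [mul_one_div]
  have hlim : Filter.Tendsto (fun n => ∑ i ∈ range n, (-1 : ℝ) ^ i * (1 / (2 * (i : ℝ) + 1)))
      Filter.atTop (nhds (π / 4)) := by
    simp only [hsum]
    exact Real.tendsto_sum_pi_div_four
  have hlo : ∀ j, LA (2 * j) ≤ π / 4 := by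
    intro j
    rw [← hsum]
    exact hanti.alternating_series_le_tendsto hlim j
  have hhi : ∀ j, π / 4 ≤ LA (2 * j + 1) := by
    intro j
    rw [← hsum]
    exact hanti.tendsto_le_alternating_series hlim j
  rcases Nat.even_or_odd' k with ⟨j, rfl | rfl⟩
  · have h1 := hlo j
    have h2 := hhi j
    rw [LA_succ, pow_mul] at h2
    norm_num at h2
    push_cast
    rw [abs_le]
    constructor
    · rw [one_div]; linarith
    · have : (0 : ℝ) ≤ 1 / (2 * (2 * (j : ℝ)) + 1) := by positivity
      linarith
  · have h1 := hhi j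
    have h2 := hlo (j + 1)
    have e : 2 * (j + 1) = 2 * j + 1 + 1 := by ring
    rw [e, LA_succ, pow_succ, pow_mul] at h2
    norm_num at h2
    rw [neg_div] at h2
    push_cast
    rw [abs_le]
    constructor
    · have : (0 : ℝ) ≤ 1 / (2 * (2 * (j : ℝ) + 1) + 1) := by positivity
      linarith
    · linarith

/-- (L1) The Leibniz series with an error term. -/
theorem pf_L1 : T_L1 := by
  intro n
  constructor
  · rw [sum_chi_div]
    refine (LA_error _).trans ?_
    have h1 : n ≤ 2 * ((n + 1) / 2) := by omega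
    have h2 : (n : ℝ) ≤ 2 * (((n + 1) / 2 : ℕ) : ℝ) := by exact_mod_cast h1
    exact one_div_le_one_div_of_le (by positivity) (by linarith)
  · rw [sum_chi]
    split_ifs <;> norm_num

end Pool.Agent.H19.MS
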