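import Pool.Agent.H44.MS.Basics
import Pool.Agent.H22.MR.Cheb

/-!
# Module [MC]: the logarithmic mean of `Λ χ` is bounded
-/

set_option autoImplicit false

namespace Pool.Agent.H19.MS

open Finset Real Pool.Agent.H44.MS

/-- Abel summation with a decreasing weight. -/
theorem abel (a w : ℕ → ℝ) (z : ℕ) (M : ℝ)
    (hA : ∀ n, z ≤ n → |∑ k ∈ Ioc z n, a k| ≤ M)
    (hw : ∀ n, z < n → w (n + 1) ≤ w n) (hw0 : ∀ n, z < n → 0 ≤ w n) :
    ∀ x, z ≤ x → |∑ n ∈ Ioc z x, a n * w n| ≤ M * w (z + 1) := by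
  have hM : 0 ≤ M := (abs_nonneg _).trans (hA z le_rfl)
  have key : ∀ x, z < x → |∑ n ∈ Ioc z x, a n * w n - (∑ n ∈ Ioc z x, a n) * w x| ≤
      M * (w (z + 1) - w x) := by
    intro x hx
    induction x, hx using Nat.le_induction with
    | base =>
      rw [Finset.sum_Ioc_succ_top le_rfl, Finset.sum_Ioc_succ_top le_rfl]
      simp
    | succ x hx ih =>
      have hx' : z ≤ x := by omega
      rw [Finset.sum_Ioc_succ_top hx', Finset.sum_Ioc_succ_top hx']
      have h1 := hA x hx'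
      have h2 := hw x (by omega)
      have e : ∑ n ∈ Ioc z x, a n * w n + a (x + 1) * w (x + 1) -
          (∑ n ∈ Ioc z x, a n + a (x + 1)) * w (x + 1) =
          (∑ n ∈ Ioc z x, a n * w n - (∑ n ∈ Ioc z x, a n) * w x) +
            (∑ n ∈ Ioc z x, a n) * (w x - w (x + 1)) := by ring
      rw [e]
      refine (abs_add_le _ _).trans ?_
      have h3 : |(∑ n ∈ Ioc z x, a n) * (w x - w (x + 1))| ≤ M * (w x - w (x + 1)) := by
        rw [abs_mul, abs_of_nonneg (sub_nonneg.2 h2)]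
        exact mul_le_mul_of_nonneg_right h1 (sub_nonneg.2 h2)
      linarith
  intro x hx
  rcases hx.eq_or_lt with rfl | hx
  · simp only [Finset.Ioc_self, Finset.sum_empty, abs_zero]
    exact mul_nonneg hM (hw0 _ (by omega))
  · have h1 := key x hx
    have h2 := hA x hx.le
    have h3 : |(∑ n ∈ Ioc z x, a n) * w x| ≤ M * w x := by
      rw [abs_mul, abs_of_nonneg (hw0 x hx)]
      exact mul_le_mul_of_nonneg_right h2 (hw0 x hx)
    have e : ∑ n ∈ Ioc z x, a n * w n =
        (∑ n ∈ Ioc z x, a n * w n - (∑ n ∈ Ioc z x, a n) * w x) + (∑ n ∈ Ioc z x, a n) * w x := by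
      ring
    rw [e]
    refine (abs_add_le _ _).trans ?_
    linarith

theorem sum_Icc_eq (f : ℕ → ℝ) {z x : ℕ} (h : z ≤ x) :
    ∑ n ∈ Icc 1 x, f n = ∑ n ∈ Icc 1 z, f n + ∑ n ∈ Ioc z x, f n := by
  have h1 : ∀ y : ℕ, Icc 1 y = Ioc 0 y := fun y => by ext n; simp [Nat.succ_le_iff]
  rw [h1, h1, Finset.sum_Ioc_consecutive f (Nat.zero_le z) h]

/-- `log n / n` decreases from `3` on. -/
theorem log_div_anti {n : ℕ} (hn : 3 ≤ n) :
    Real.log ((n + 1 : ℕ) : ℝ) / ((n + 1 : ℕ) : ℝ) ≤ Real.log n / n := by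
  have h3 : (3 : ℝ) ≤ n := by exact_mod_cast hn
  have he : Real.exp 1 ≤ n := by
    have := Real.exp_one_lt_d9
    linarith
  refine Real.log_div_self_antitoneOn ?_ ?_ ?_
  · exact he
  · change Real.exp 1 ≤ ((n + 1 : ℕ) : ℝ)
    push_cast
    linarith
  · push_cast
    linarith

/-- The partial sums of `χ(m) log m / m` are bounded. -/
theorem sum_chi_log_bdd (h : T_L1) :
    ∃ C : ℝ, 0 < C ∧ ∀ n : ℕ, |∑ m ∈ Icc 1 n, chi m * (Real.log m / m)| ≤ C := by
  have hnn : ∀ m : ℕ, 0 ≤ Real.log m / m := fun m =>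
    div_nonneg (Real.log_natCast_nonneg m) (Nat.cast_nonneg m)
  have hb : ∀ m : ℕ, |chi m * (Real.log m / m)| ≤ Real.log m / m := by
    intro m
    rw [abs_mul, abs_of_nonneg (hnn m)]
    exact mul_le_of_le_one_left (hnn m) (abs_chi_le m)
  set B : ℝ := ∑ m ∈ Icc (1 : ℕ) 2, Real.log m / m with hB
  have hB0 : 0 ≤ B := sum_nonneg (fun m _ => hnn m)
  refine ⟨B + 2 * (Real.log ((2 + 1 : ℕ) : ℝ) / ((2 + 1 : ℕ) : ℝ)) + 1, ?_, ?_⟩
  · have := hnn (2 + 1)
    linarith
  · intro n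
    rcases le_or_gt n 2 with hn | hn
    · refine (abs_sum_le_sum_abs _ _).trans ?_
      refine (sum_le_sum (fun m _ => hb m)).trans ?_
      have h1 : ∑ m ∈ Icc (1 : ℕ) n, Real.log m / m ≤ B :=
        sum_le_sum_of_subset_of_nonneg (Icc_subset_Icc_right hn) (fun m _ _ => hnn m)
      have := hnn (2 + 1)
      linarith
    · rw [sum_Icc_eq _ hn.le]
      refine (abs_add_le _ _).trans ?_
      have h1 : |∑ m ∈ Icc (1 : ℕ) 2, chi m * (Real.log m / m)| ≤ B :=
        (abs_sum_le_sum_abs _ _).trans (sum_le_sum (fun m _ => hb m))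
      have h2 := abel chi (fun m => Real.log m / m) 2 2 (fun k hk => ?_)
        (fun k hk => log_div_anti (by omega)) (fun k _ => hnn k) n hn.le
      · linarith
      · have e := sum_Icc_eq chi hk
        have h3 := (h k).2
        have h4 := (h 2).2
        have e2 : ∑ m ∈ Ioc 2 k, chi m = ∑ m ∈ Icc 1 k, chi m - ∑ m ∈ Icc 1 2, chi m := by
          linarith
        rw [e2]
        refine (abs_sub _ _).trans ?_
        linarith

/-- Double counting. -/
theorem double_count (n : ℕ) (F : ℕ → ℕ → ℝ) :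
    ∑ m ∈ Icc 1 n, ∑ d ∈ m.divisors, F d (m / d) =
      ∑ d ∈ Icc 1 n, ∑ b ∈ Icc 1 (n / d), F d b := by
  rw [Finset.sum_sigma', Finset.sum_sigma']
  refine Finset.sum_nbij' (fun x => ⟨x.2, x.1 / x.2⟩) (fun x => ⟨x.1 * x.2, x.1⟩) ?_ ?_ ?_ ?_ ?_
  · rintro ⟨m, d⟩ hx
    simp only [mem_sigma, mem_Icc, Nat.mem_divisors] at hx ⊢
    obtain ⟨⟨h1, h2⟩, h3, h4⟩ := hx
    have hd : 0 < d := Nat.pos_of_dvd_of_pos h3 h1
    have hdm : d ≤ m := Nat.le_of_dvd h1 h3
    exact ⟨⟨hd, hdm.trans h2⟩, Nat.div_pos hdm hd, Nat.div_le_div_right h2⟩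
  · rintro ⟨d, b⟩ hx
    simp only [mem_sigma, mem_Icc, Nat.mem_divisors] at hx ⊢
    obtain ⟨⟨h1, h2⟩, h3, h4⟩ := hx
    have hb : 0 < d * b := Nat.mul_pos h1 h3
    refine ⟨⟨hb, ?_⟩, dvd_mul_right _ _, hb.ne'⟩
    have := (Nat.le_div_iff_mul_le (by omega : 0 < d)).1 h4
    rw [mul_comm]
    exact this
  · rintro ⟨m, d⟩ hx
    simp only [mem_sigma, mem_Icc, Nat.mem_divisors] at hx ⊢
    obtain ⟨⟨h1, h2⟩, h3, h4⟩ := hx
    rw [Nat.mul_div_cancel' h3]
  · rintro ⟨d, b⟩ hx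
    simp only [mem_sigma, mem_Icc] at hx ⊢
    rw [Nat.mul_div_cancel_left _ (by omega)]
  · rintro ⟨m, d⟩ _
    rfl

theorem sum_chi_log_eq (n : ℕ) :
    ∑ m ∈ Icc 1 n, chi m * (Real.log m / m) =
      ∑ d ∈ Icc 1 n, ArithmeticFunction.vonMangoldt d * chi d / d *
        ∑ b ∈ Icc 1 (n / d), chi b / b := by
  have h1 : ∀ m ∈ Icc 1 n, chi m * (Real.log m / m) = ∑ d ∈ m.divisors,
      ArithmeticFunction.vonMangoldt d * chi d / d * (chi (m / d : ℕ) / (m / d : ℕ)) := by
    intro m hm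
    have hm1 := (mem_Icc.1 hm).1
    rw [← ArithmeticFunction.vonMangoldt_sum, sum_div, mul_sum]
    refine sum_congr rfl (fun d hd => ?_)
    have hdm := Nat.dvd_of_mem_divisors hd
    obtain ⟨b, rfl⟩ := hdm
    have hd0 : 0 < d := Nat.pos_of_mul_pos_right hm1
    have hb0 : 0 < b := Nat.pos_of_mul_pos_left hm1
    rw [Nat.mul_div_cancel_left b hd0, chi_mul]
    have hd0' : (d : ℝ) ≠ 0 := by exact_mod_cast hd0.ne'
    have hb0' : (b : ℝ) ≠ 0 := by exact_mod_cast hb0.ne'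
    push_cast
    field_simp
  rw [sum_congr rfl h1, double_count n (fun d b =>
    ArithmeticFunction.vonMangoldt d * chi d / d * (chi b / b))]
  refine sum_congr rfl (fun d _ => ?_)
  rw [mul_sum]

/-- (MC) The logarithmic mean of `Λ χ` is bounded. -/
theorem pf_MC (h : T_L1) : T_MC := by
  obtain ⟨C, hC, hC'⟩ := sum_chi_log_bdd h
  refine ⟨4 / π * (C + 6), by positivity, fun n => ?_⟩
  rcases Nat.eq_zero_or_pos n with rfl | hn
  · simp only [Finset.Icc_eq_empty_of_lt zero_lt_one, sum_empty, abs_zero]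
    positivity
  set X := ∑ d ∈ Icc 1 n, ArithmeticFunction.vonMangoldt d * chi d / d with hX
  have hn' : (0 : ℝ) < n := by exact_mod_cast hn
  have h1 : |∑ m ∈ Icc 1 n, chi m * (Real.log m / m) - X * (π / 4)| ≤ 6 := by
    rw [sum_chi_log_eq, hX, sum_mul, ← sum_sub_distrib]
    refine (abs_sum_le_sum_abs _ _).trans ?_
    have h2 : ∀ d ∈ Icc 1 n, |ArithmeticFunction.vonMangoldt d * chi d / d *
        ∑ b ∈ Icc 1 (n / d), chi b / b - ArithmeticFunction.vonMangoldt d * chi d / d * (π / 4)| ≤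
        ArithmeticFunction.vonMangoldt d / n := by
      intro d hd
      have hd1 := (mem_Icc.1 hd).1
      have hd' : (0 : ℝ) < d := by exact_mod_cast hd1
      rw [← mul_sub, abs_mul]
      have h3 := (h (n / d)).1
      have h4 : |ArithmeticFunction.vonMangoldt d * chi d / (d : ℝ)| ≤
          ArithmeticFunction.vonMangoldt d / d := by
        rw [abs_div, abs_mul, abs_of_nonneg ArithmeticFunction.vonMangoldt_nonneg,
          abs_of_pos hd']
        exact div_le_div_of_nonneg_right (mul_le_of_le_one_right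
          ArithmeticFunction.vonMangoldt_nonneg (abs_chi_le d)) hd'.le
      have h5 : 1 / (((n / d : ℕ) : ℝ) + 1) ≤ d / n := by
        rw [div_le_div_iff₀ (by positivity) hn', one_mul]
        have h6 : n < d * (n / d + 1) := by
          have := Nat.lt_mul_div_succ n (by omega : 0 < d)
          exact this
        have h7 : (n : ℝ) < d * (((n / d : ℕ) : ℝ) + 1) := by exact_mod_cast h6
        exact h7.le
      calc |ArithmeticFunction.vonMangoldt d * chi d / (d : ℝ)| *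
            |∑ b ∈ Icc 1 (n / d), chi b / b - π / 4|
          ≤ ArithmeticFunction.vonMangoldt d / d * (d / n) :=
            mul_le_mul h4 (h3.trans h5) (abs_nonneg _)
              (div_nonneg ArithmeticFunction.vonMangoldt_nonneg hd'.le)
        _ = ArithmeticFunction.vonMangoldt d / n := by field_simp
    refine (sum_le_sum h2).trans ?_
    rw [← sum_div, div_le_iff₀ hn']
    have h8 := Pool.Agent.H22.MR.psi_bound (n : ℝ) hn'.le
    rw [Nat.floor_natCast] at h8
    exact h8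
  have h2 := hC' n
  have h3 : |X * (π / 4)| ≤ C + 6 := by
    have e : X * (π / 4) = ∑ m ∈ Icc 1 n, chi m * (Real.log m / m) -
      (∑ m ∈ Icc 1 n, chi m * (Real.log m / m) - X * (π / 4)) := by ring
    rw [e]
    refine (abs_sub _ _).trans ?_
    linarith
  rw [abs_mul, abs_of_pos (by positivity : (0 : ℝ) < π / 4)] at h3
  have h4 : |X| = 4 / π * (|X| * (π / 4)) := by
    field_simp
  rw [h4]
  exact mul_le_mul_of_nonneg_left h3 (by positivity)

end Pool.Agent.H19.MS
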