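import Pool.Agent.H19.MS.MC
import Mathlib.NumberTheory.LSeries.PrimesInAP

/-!
# Module [MER]: Mertens' theorems for `1/p` and `χ(p)/p`
-/

set_option autoImplicit false

namespace Pool.Agent.H19.MS

open Finset Real Pool.Agent.H44.MS

open ArithmeticFunction (vonMangoldt)

/-- The contribution of the prime powers is bounded. -/
theorem nonprime_bdd : ∃ C : ℝ, 0 < C ∧ ∀ n : ℕ,
    ∑ d ∈ Icc 1 n, (if d.Prime then 0 else vonMangoldt d) / (d : ℝ) ≤ C := by
  have hs := ArithmeticFunction.vonMangoldt.summable_residueClass_non_primes_div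
    (q := 1) (a := (1 : ZMod 1))
  have hr : ∀ n : ℕ, ArithmeticFunction.vonMangoldt.residueClass (1 : ZMod 1) n =
      vonMangoldt n := by
    intro n
    refine Set.indicator_of_mem ?_ _
    exact Subsingleton.elim _ _
  simp only [hr] at hs
  have hnn : ∀ n : ℕ, 0 ≤ (if n.Prime then 0 else vonMangoldt n) / (n : ℝ) := by
    intro n
    refine div_nonneg ?_ (Nat.cast_nonneg n)
    split_ifs
    · exact le_rfl
    · exact ArithmeticFunction.vonMangoldt_nonneg
  refine ⟨∑' n : ℕ, (if n.Prime then 0 else vonMangoldt n) / (n : ℝ) + 1, ?_, fun n => ?_⟩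
  · have := tsum_nonneg (L := SummationFilter.unconditional ℕ) hnn
    linarith
  · have := hs.sum_le_tsum (Icc 1 n) (fun i _ => hnn i)
    linarith

/-- The terms of the prime sums. -/
noncomputable def tp (n : ℕ) : ℝ := ic n.Prime * Real.log n / n

theorem tp_eq (n : ℕ) :
    tp n = vonMangoldt n / n - (if n.Prime then 0 else vonMangoldt n) / (n : ℝ) := by
  unfold tp
  by_cases h : n.Prime
  · rw [ic_pos h, if_pos h, ArithmeticFunction.vonMangoldt_apply_prime h]
    simp
  · rw [ic_neg h, if_neg h]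
    simp

theorem sum_tp_bdd : ∃ C : ℝ, 0 < C ∧ ∀ n : ℕ, 1 ≤ n →
    |∑ p ∈ Icc 1 n, tp p - Real.log n| ≤ C := by
  obtain ⟨C, hC, hC'⟩ := nonprime_bdd
  refine ⟨6 + C, by linarith, fun n hn => ?_⟩
  have h1 := Pool.Agent.H22.MR.mertens_le hn
  have h2 := Pool.Agent.H22.MR.mertens_ge hn
  have h3 := hC' n
  have h4 : 0 ≤ ∑ d ∈ Icc 1 n, (if d.Prime then 0 else vonMangoldt d) / (d : ℝ) := by
    refine sum_nonneg (fun d _ => div_nonneg ?_ (Nat.cast_nonneg d))
    split_ifs
    · exact le_rfl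
    · exact ArithmeticFunction.vonMangoldt_nonneg
  simp only [tp_eq, sum_sub_distrib]
  rw [abs_le]
  constructor
  · linarith
  · linarith

theorem sum_tp_chi_bdd (h : T_MC) : ∃ C : ℝ, 0 < C ∧ ∀ n : ℕ,
    |∑ p ∈ Icc 1 n, tp p * chi p| ≤ C := by
  obtain ⟨C, hC, hC'⟩ := nonprime_bdd
  obtain ⟨D, hD, hD'⟩ := h
  refine ⟨D + C, by linarith, fun n => ?_⟩
  have e : ∑ p ∈ Icc 1 n, tp p * chi p = ∑ d ∈ Icc 1 n, vonMangoldt d * chi d / d -
      ∑ d ∈ Icc 1 n, (if d.Prime then 0 else vonMangoldt d) / (d : ℝ) * chi d := by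
    rw [← sum_sub_distrib]
    refine sum_congr rfl (fun d _ => ?_)
    rw [tp_eq]
    ring
  rw [e]
  refine (abs_sub _ _).trans ?_
  have h1 := hD' n
  have h2 : |∑ d ∈ Icc 1 n, (if d.Prime then 0 else vonMangoldt d) / (d : ℝ) * chi d| ≤ C := by
    refine (abs_sum_le_sum_abs _ _).trans (le_trans (sum_le_sum (fun d _ => ?_)) (hC' n))
    have hnn : 0 ≤ (if d.Prime then 0 else vonMangoldt d) / (d : ℝ) := by
      refine div_nonneg ?_ (Nat.cast_nonneg d)
      split_ifs
      · exact le_rfl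
      · exact ArithmeticFunction.vonMangoldt_nonneg
    rw [abs_mul, abs_of_nonneg hnn]
    exact mul_le_of_le_one_right hnn (abs_chi_le d)
  linarith

theorem log_pos' {n : ℕ} (hn : 2 ≤ n) : 0 < Real.log n :=
  Real.log_pos (by exact_mod_cast (by omega : 1 < n))

theorem w_anti {n : ℕ} (hn : 2 ≤ n) : 1 / Real.log ((n + 1 : ℕ) : ℝ) ≤ 1 / Real.log n := by
  refine one_div_le_one_div_of_le (log_pos' hn) (Real.log_le_log ?_ ?_)
  · exact_mod_cast (by omega : 0 < n)
  · push_cast; linarith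

/-- Comparison of the sum of `(log n - log (n-1)) / log n` with `log log`. -/
theorem loglog_sum {z : ℕ} (hz : 2 ≤ z) (x : ℕ) (hx : z ≤ x) :
    |∑ n ∈ Ioc z x, (Real.log n - Real.log ((n - 1 : ℕ) : ℝ)) * (1 / Real.log n) -
      (Real.log (Real.log x) - Real.log (Real.log z))| ≤
      1 / Real.log z - 1 / Real.log x := by
  induction x, hx using Nat.le_induction with
  | base => simp
  | succ x hx ih =>
    have hx2 : 2 ≤ x := hz.trans hx
    rw [Finset.sum_Ioc_succ_top hx, Nat.add_sub_cancel]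
    set u := Real.log (x : ℝ) with hu
    set v := Real.log ((x + 1 : ℕ) : ℝ) with hv
    have hu0 : 0 < u := log_pos' hx2
    have hv0 : 0 < v := log_pos' (by omega)
    have huv : u ≤ v := Real.log_le_log (by exact_mod_cast (by omega : 0 < x))
      (by push_cast; linarith)
    have hvu : v - u ≤ 1 := by
      have hx0 : (0 : ℝ) < x := by exact_mod_cast (by omega : 0 < x)
      have hx1 : (1 : ℝ) ≤ x := by exact_mod_cast (by omega : 1 ≤ x)
      have h1 := Real.log_le_sub_one_of_pos
        (div_pos (by positivity : (0 : ℝ) < ((x + 1 : ℕ) : ℝ)) hx0)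
      rw [Real.log_div (by positivity) hx0.ne'] at h1
      have h2 : ((x + 1 : ℕ) : ℝ) / x - 1 ≤ 1 := by
        push_cast
        rw [sub_le_iff_le_add, div_le_iff₀ hx0]
        linarith
      linarith
    have h1 : (v - u) * (1 / v) ≤ Real.log v - Real.log u := by
      have h3 := Real.log_le_sub_one_of_pos (div_pos hu0 hv0)
      rw [Real.log_div hu0.ne' hv0.ne'] at h3
      have e : (v - u) * (1 / v) = 1 - u / v := by field_simp
      rw [e]
      linarith
    have h2 : Real.log v - Real.log u ≤ (v - u) * (1 / u) := by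
      have h3 := Real.log_le_sub_one_of_pos (div_pos hv0 hu0)
      rw [Real.log_div hv0.ne' hu0.ne'] at h3
      have e : (v - u) * (1 / u) = v / u - 1 := by field_simp
      rw [e]
      linarith
    have h4 : 1 / v ≤ 1 / u := one_div_le_one_div_of_le hu0 huv
    have h5 : (v - u) * (1 / u) - (v - u) * (1 / v) ≤ 1 / u - 1 / v := by
      have : (v - u) * (1 / u - 1 / v) ≤ 1 * (1 / u - 1 / v) :=
        mul_le_mul_of_nonneg_right hvu (by linarith)
      linarith
    rw [abs_le] at ih ⊢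
    constructor
    · linarith [ih.1]
    · linarith [ih.2]

/-- (MER) Mertens' theorems. -/
theorem pf_MER (h : T_MC) : T_MER := by
  obtain ⟨C, hC, hC'⟩ := sum_tp_bdd
  obtain ⟨D, hD, hD'⟩ := sum_tp_chi_bdd h
  refine ⟨2 * C + 1 + 2 * D, by linarith, fun z x hz hzx => ?_⟩
  have hlz : 0 < Real.log z := log_pos' hz
  have hlz1 : 1 / Real.log ((z + 1 : ℕ) : ℝ) ≤ 1 / Real.log z := w_anti hz
  have hw : ∀ n, z < n → 1 / Real.log ((n + 1 : ℕ) : ℝ) ≤ 1 / Real.log n :=
    fun n hn => w_anti (by omega)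
  have hw0 : ∀ n : ℕ, z < n → 0 ≤ 1 / Real.log (n : ℝ) :=
    fun n hn => (one_div_pos.2 (log_pos' (by omega))).le
  constructor
  · -- the sum of `1/p`
    have hA : ∀ n, z ≤ n →
        |∑ k ∈ Ioc z n, (tp k - (Real.log k - Real.log ((k - 1 : ℕ) : ℝ)))| ≤ 2 * C := by
      intro n hn
      have e1 := sum_Icc_eq tp hn
      have e2 : ∑ k ∈ Ioc z n, (Real.log k - Real.log ((k - 1 : ℕ) : ℝ)) =
          Real.log n - Real.log z := by
        induction n, hn using Nat.le_induction with
        | base => simp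
        | succ n hn ih =>
          rw [Finset.sum_Ioc_succ_top hn, ih (sum_Icc_eq tp hn), Nat.add_sub_cancel]
          ring
      rw [sum_sub_distrib, e2]
      have h1 := hC' n (by omega)
      have h2 := hC' z (by omega)
      rw [abs_le] at h1 h2 ⊢
      constructor
      · linarith [h1.1, h1.2, h2.1, h2.2]
      · linarith [h1.1, h1.2, h2.1, h2.2]
    have h1 := abel _ (fun n => 1 / Real.log (n : ℝ)) z (2 * C) hA hw hw0 x hzx
    have h2 := loglog_sum hz x hzx
    have e : ∑ n ∈ Ioc z x, (tp n - (Real.log n - Real.log ((n - 1 : ℕ) : ℝ))) *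
        (1 / Real.log (n : ℝ)) = ∑ p ∈ Ioc z x, ic p.Prime / p -
        ∑ n ∈ Ioc z x, (Real.log n - Real.log ((n - 1 : ℕ) : ℝ)) * (1 / Real.log n) := by
      rw [← sum_sub_distrib]
      refine sum_congr rfl (fun n hn => ?_)
      have hn' := log_pos' (n := n) (by have := (mem_Ioc.1 hn).1; omega)
      rw [sub_mul]
      congr 1
      unfold tp
      field_simp
    rw [e] at h1
    have h3 : 2 * C * (1 / Real.log ((z + 1 : ℕ) : ℝ)) ≤ 2 * C * (1 / Real.log z) :=
      mul_le_mul_of_nonneg_left hlz1 (by linarith)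
    have h4 : 0 ≤ 1 / Real.log (x : ℝ) := (one_div_pos.2 (log_pos' (by omega))).le
    have h5 : 0 ≤ D * (1 / Real.log z) := mul_nonneg hD.le (one_div_pos.2 hlz).le
    have e5 : (2 * C + 1 + 2 * D) / Real.log z =
        2 * C * (1 / Real.log z) + 1 / Real.log z + 2 * (D * (1 / Real.log z)) := by
      field_simp
    rw [e5]
    rw [abs_le] at h1 h2 ⊢
    constructor
    · linarith [h1.1, h1.2, h2.1, h2.2]
    · linarith [h1.1, h1.2, h2.1, h2.2]
  · have hA : ∀ n, z ≤ n → |∑ k ∈ Ioc z n, tp k * chi k| ≤ 2 * D := by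
      intro n hn
      have e1 := sum_Icc_eq (fun k => tp k * chi k) hn
      have h1 := hD' n
      have h2 := hD' z
      rw [abs_le] at h1 h2 ⊢
      constructor
      · linarith [h1.1, h1.2, h2.1, h2.2]
      · linarith [h1.1, h1.2, h2.1, h2.2]
    have h1 := abel _ (fun n => 1 / Real.log (n : ℝ)) z (2 * D) hA hw hw0 x hzx
    have e : ∑ n ∈ Ioc z x, tp n * chi n * (1 / Real.log (n : ℝ)) =
        ∑ p ∈ Ioc z x, ic p.Prime * chi p / p := by
      refine sum_congr rfl (fun n hn => ?_)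
      have hn' := log_pos' (n := n) (by have := (mem_Ioc.1 hn).1; omega)
      unfold tp
      field_simp
    rw [e] at h1
    refine h1.trans ?_
    have h3 : 2 * D * (1 / Real.log ((z + 1 : ℕ) : ℝ)) ≤ 2 * D * (1 / Real.log z) :=
      mul_le_mul_of_nonneg_left hlz1 (by linarith)
    refine h3.trans ?_
    rw [mul_one_div]
    exact div_le_div_of_nonneg_right (by linarith) hlz.le

end Pool.Agent.H19.MS
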