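import Pool.Agent.H44.MS.Basics

/-!
# Module [VT]: Mertens' product, upper bound
-/

set_option autoImplicit false

namespace Pool.Agent.H19.MS

open Finset Real Pool.Agent.H44.MS

/-- (VT) Mertens' product, upper bound. -/
theorem pf_VT (h : T_MER) : T_VT := by
  obtain ⟨C, hC, hC'⟩ := h
  refine ⟨Real.exp (Real.log (Real.log 2) + C / Real.log 2), Real.exp_pos _, fun z hz => ?_⟩
  have hlz : 0 < Real.log z := Real.log_pos (by exact_mod_cast (by omega : 1 < z))
  have h1 := (hC' 2 z le_rfl hz).1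
  have h2 : VA (fun _ => True) z ≤ Real.exp (-∑ p ∈ Icc 1 z, ic p.Prime / (p : ℝ)) := by
    unfold VA
    rw [← sum_neg_distrib, Real.exp_sum]
    refine prod_le_prod (fun p hp => ?_) (fun p hp => ?_)
    · have hp1 : (1 : ℝ) ≤ p := by exact_mod_cast (mem_Icc.1 hp).1
      have h3 : ic (p.Prime ∧ True) / (p : ℝ) ≤ 1 := by
        rw [div_le_one (by linarith)]
        exact (ic_le_one _).trans hp1
      linarith
    · rw [and_true]
      have := Real.add_one_le_exp (-(ic p.Prime / (p : ℝ)))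
      linarith
  have h3 : ∑ p ∈ Ioc 2 z, ic p.Prime / (p : ℝ) ≤ ∑ p ∈ Icc 1 z, ic p.Prime / (p : ℝ) := by
    refine sum_le_sum_of_subset_of_nonneg (fun p hp => ?_)
      (fun p _ _ => div_nonneg (ic_nonneg _) (Nat.cast_nonneg p))
    rw [mem_Ioc] at hp
    rw [mem_Icc]
    omega
  refine h2.trans ?_
  have h4 := (abs_le.1 h1).1
  push_cast at h4
  have h5 : -∑ p ∈ Icc 1 z, ic p.Prime / (p : ℝ) ≤
      Real.log (Real.log 2) + C / Real.log 2 - Real.log (Real.log z) := by
    linarith
  refine (Real.exp_le_exp.2 h5).trans ?_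
  rw [Real.exp_sub, Real.exp_log hlz]

end Pool.Agent.H19.MS
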